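import Pool.Agent.Helper9.UP.StC

set_option autoImplicit false

namespace Pool.Agent.Helper28.UP

open Finset Polynomial
open Pool.Agent.Helper9.UP

theorem hC0 : StC0 := by
  classical
  intro f hN hd
  have hk : ∀ p : ℕ, ∃ k : ℤ, p.Prime → ¬ (p : ℤ) ∣ f.eval k := by
    intro p
    by_cases hp : p.Prime
    · obtain ⟨k, hk⟩ := hN p hp.one_lt
      exact ⟨k, fun _ => hk⟩
    · exact ⟨0, fun h => absurd h hp⟩
  choose kp hkp using hk
  set t : Finset ℕ := (range (2 * f.natDegree + 1)).filter Nat.Prime with ht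
  have hs : ∀ i ∈ t, (fun p : ℕ => p) i ≠ 0 := by
    intro i hi
    exact (mem_filter.mp hi).2.ne_zero
  have pp : Set.Pairwise (t : Set ℕ) (Function.onFun Nat.Coprime (fun p : ℕ => p)) := by
    intro a ha b hb hab
    have ha' := (mem_filter.mp (mem_coe.mp ha)).2
    have hb' := (mem_filter.mp (mem_coe.mp hb)).2
    exact (Nat.coprime_primes ha' hb').mpr hab
  obtain ⟨k, hk⟩ := Nat.chineseRemainderOfFinset (fun p : ℕ => (kp p % (p : ℤ)).toNat)
    (fun p : ℕ => p) t hs pp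
  have hPM : 0 < PM f := by
    unfold PM
    exact primorial_pos _
  refine ⟨k % PM f, Nat.mod_lt _ hPM, ?_⟩
  intro m hm p hp hpd hdiv
  have hpt : p ∈ t := by
    rw [ht, mem_filter, mem_range]
    exact ⟨by omega, hp⟩
  have h1 : p ∣ PM f := by
    unfold PM primorial
    exact Finset.dvd_prod_of_mem (fun q : ℕ => q) hpt
  have h2 : m ≡ k [MOD PM f] := hm
  have h3 : m ≡ k [MOD p] := h2.of_dvd h1
  have h4 : m ≡ (kp p % (p : ℤ)).toNat [MOD p] := h3.trans (hk p hpt)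
  have hp0 : (p : ℤ) ≠ 0 := by exact_mod_cast hp.ne_zero
  have h5 : (((kp p % (p : ℤ)).toNat : ℕ) : ℤ) = kp p % (p : ℤ) :=
    Int.toNat_of_nonneg (Int.emod_nonneg _ hp0)
  have h6 : (m : ℤ) ≡ kp p [ZMOD (p : ℤ)] := by
    have h7 := (Int.natCast_modEq_iff).mpr h4
    rw [h5] at h7
    exact h7.trans (Int.mod_modEq _ _)
  have h8 : (p : ℤ) ∣ kp p - (m : ℤ) := h6.dvd
  have h9 : (p : ℤ) ∣ f.eval (kp p) - f.eval (m : ℤ) :=
    h8.trans (Polynomial.sub_dvd_eval_sub _ _ _)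
  apply hkp p hp
  have h10 := dvd_add h9 hdiv
  simpa using h10

end Pool.Agent.Helper28.UP
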