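import Pool.Agent.Helper30.UP.St

/-!
# MP_e73f90_co, project UP, module STEP: one step of the chain
-/

set_option autoImplicit false

noncomputable section

namespace Pool.Agent.Helper28.UP

open Finset Pool.Agent.Helper30.UP
open scoped Classical

theorem dot_all_STEP {c : ℕ} (v : E c) : v = 0 ↔ ∀ x : E c, x ⬝ᵥ v = 0 := by
  constructor
  · rintro rfl x
    exact dotProduct_zero x
  · intro h
    by_contra hv
    obtain ⟨x, hx⟩ := exists_dot v hv
    rw [h x] at hx
    exact absurd hx (by decide)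

theorem hSTEP (hR : StRES) (hL : StLL) : StSTEP := by
  intro K hK
  obtain ⟨K₁, η, hK₁, hη, hLL⟩ := hL K hK
  refine ⟨K₁, η, hK₁, hη, ?_⟩
  intro c n D s hD hn hdiv hF W hW hPu
  obtain ⟨c', s', φ, hφi, hφr, hc', hdot⟩ := hR c n s W
  have hwt : ∀ x', wt s' x' = wt s (φ x') := by
    intro x'
    unfold wt
    congr 1
    exact filter_congr fun i _ => by rw [hdot]
  have hmemW : ∀ x, x ∈ W ↔ ∃ x', φ x' = x := by
    intro x
    rw [← hφr, LinearMap.mem_range]
  have hz : ∀ i, s' i = 0 ↔ s i ∈ perp W := by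
    intro i
    rw [dot_all_STEP, mem_perp]
    constructor
    · intro h x hx
      obtain ⟨x', rfl⟩ := (hmemW x).1 hx
      rw [← hdot]
      exact h x'
    · intro h x'
      rw [hdot]
      exact h _ ((hmemW _).2 ⟨x', rfl⟩)
  have hz2 : ∀ i j, s' i = s' j ↔ s i + s j ∈ perp W := by
    intro i j
    rw [← E_add_eq_zero, dot_all_STEP, mem_perp]
    constructor
    · intro h x hx
      obtain ⟨x', rfl⟩ := (hmemW x).1 hx
      have := h x'
      rw [dotProduct_add, hdot, hdot] at this
      rw [dotProduct_add]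
      exact this
    · intro h x'
      have := h _ ((hmemW _).2 ⟨x', rfl⟩)
      rw [dotProduct_add] at this
      rw [dotProduct_add, hdot, hdot]
      exact this
  have hKr : (1 : ℝ) ≤ K := by exact_mod_cast hK
  have hK4 : (0 : ℝ) < 8 * (K : ℝ) ^ 4 := by positivity
  obtain ⟨H, hH1, hH2⟩ := hLL c' n D s' hD hn (fun x' => by rw [hwt]; exact hdiv _) (by
    intro v' hv'
    by_cases hex : ∃ j, s' j = v'
    · obtain ⟨j, hj⟩ := hex
      have hjW : s j ∉ perp W := by
        rw [← hz j, hj]
        exact hv'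
      have h := hPu (s j) hjW
      have e : (univ.filter (fun i => s' i = v')) = univ.filter (fun i => s i + s j ∈ perp W) := by
        refine filter_congr fun i _ => ?_
        rw [← hj, hz2]
      rw [e]
      calc 8 * (K : ℝ) ^ 4 * ((univ.filter (fun i => s i + s j ∈ perp W)).card : ℕ)
          ≤ 8 * (K : ℝ) ^ 4 * (1 / (8 * (K : ℝ) ^ 4) * n) := mul_le_mul_of_nonneg_left h hK4.le
        _ = n := by field_simp
    · have e : (univ.filter (fun i => s' i = v')) = ∅ := by
        rw [filter_eq_empty_iff]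
        intro i _ hi
        exact hex ⟨i, hi⟩
      rw [e]
      simp) (by
    obtain ⟨w, hw, hw0⟩ := (Submodule.ne_bot_iff W).1 hW
    obtain ⟨x', rfl⟩ := (hmemW w).1 hw
    exact ⟨x', by rw [hwt]; exact hF _ hw0⟩)
  refine ⟨(perp H).map φ, ?_, ?_, ?_⟩
  · intro x hx
    obtain ⟨y, -, rfl⟩ := Submodule.mem_map.1 hx
    exact (hmemW _).2 ⟨y, rfl⟩
  · have e1 : Nat.card ((perp H).map φ) = Nat.card (perp H) :=
      (Nat.card_congr (Submodule.equivMapOfInjective φ hφi (perp H)).toEquiv).symm
    have e2 : (Nat.card W : ℝ) = Nat.card H * Nat.card (perp H) := by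
      rw [← hc', ← card_perp H]
      push_cast
      ring
    rw [e1, e2]
    exact mul_le_mul_of_nonneg_right hH1 (Nat.cast_nonneg _)
  · have hdisj : Disjoint (univ.filter (fun i => s i ∈ perp W))
        (univ.filter (fun i => s' i ∈ H ∧ s' i ≠ 0)) := by
      rw [Finset.disjoint_left]
      intro i hi hi'
      rw [mem_filter] at hi hi'
      exact hi'.2.2 ((hz i).2 hi.2)
    have hsub : (univ.filter (fun i => s i ∈ perp W)) ∪ (univ.filter (fun i => s' i ∈ H ∧ s' i ≠ 0))
        ⊆ univ.filter (fun i => s i ∈ perp ((perp H).map φ)) := by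
      intro i hi
      rw [mem_filter]
      refine ⟨mem_univ _, ?_⟩
      rw [mem_perp]
      intro x hx
      obtain ⟨y, hy, rfl⟩ := Submodule.mem_map.1 hx
      rcases mem_union.1 hi with hi | hi
      · exact (mem_filter.1 hi).2 _ ((hmemW _).2 ⟨y, rfl⟩)
      · rw [← hdot, dotProduct_comm]
        exact hy _ (mem_filter.1 hi).2.1
    have hcard := card_le_card hsub
    rw [card_union_of_disjoint hdisj] at hcard
    have hcard' : ((zc s W : ℕ) : ℝ) + ((univ.filter (fun i => s' i ∈ H ∧ s' i ≠ 0)).card : ℕ)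
        ≤ (zc s ((perp H).map φ) : ℕ) := by exact_mod_cast hcard
    linarith

end Pool.Agent.Helper28.UP
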