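import Pool.Agent.Helper9.UP.StN

/-!
# MP_d466de_nt, project UP, module SV: a short vector in an ideal
-/

set_option autoImplicit false

noncomputable section

namespace Pool.Agent.Helper28.UP

open Finset Polynomial NumberField Module
open Pool.Agent.Helper9.UP

theorem hSV : StSV := by
  classical
  intro K _ _ T hGen I hI
  obtain ⟨α, hli, hT⟩ := hGen
  have hd : 0 < dg K := finrank_pos
  have hN : Ideal.absNorm I ≠ 0 := by
    rw [Ne, Ideal.absNorm_eq_zero_iff]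
    exact hI
  have hnm : (1 : ℝ) ≤ nm K I := by
    unfold nm
    exact_mod_cast Nat.one_le_iff_ne_zero.2 hN
  have hdR : (0 : ℝ) < dg K := by exact_mod_cast hd
  set r : ℝ := nm K I ^ (1 / (dg K : ℝ)) with hr
  have hr0 : 0 ≤ r := Real.rpow_nonneg (by linarith) _
  have hrd : r ^ (dg K) = nm K I := by
    rw [hr, ← Real.rpow_natCast, ← Real.rpow_mul (by linarith), one_div,
      inv_mul_cancel₀ hdR.ne', Real.rpow_one]
  set q : ℕ := ⌊r⌋₊ + 1 with hq
  have hqr : r < q := by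
    rw [hq]
    exact_mod_cast Nat.lt_floor_add_one r
  have hcard : Ideal.absNorm I < q ^ dg K := by
    have h1 : r ^ dg K < (q : ℝ) ^ dg K := pow_lt_pow_left₀ hqr hr0 hd.ne'
    rw [hrd] at h1
    unfold nm at h1
    exact_mod_cast h1
  have hfin : Finite (𝓞 K ⧸ I) := Ideal.finiteQuotientOfFreeOfNeBot I hI
  have := Fintype.ofFinite (𝓞 K ⧸ I)
  have hc2 : Fintype.card (𝓞 K ⧸ I) < Fintype.card (Fin (dg K) → Fin q) := by
    rw [Fintype.card_fun, Fintype.card_fin, Fintype.card_fin, ← Nat.card_eq_fintype_card]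
    exact hcard
  obtain ⟨c, c', hne, heq⟩ := Fintype.exists_ne_map_eq_of_card_lt
    (fun c : Fin (dg K) → Fin q => Ideal.Quotient.mk I (∑ i, (((c i : ℕ) : ℤ)) • α ^ (i : ℕ))) hc2
  rw [Ideal.Quotient.eq] at heq
  have hx : (∑ i, (((c i : ℕ) : ℤ)) • α ^ (i : ℕ)) - ∑ i, (((c' i : ℕ) : ℤ)) • α ^ (i : ℕ)
      = ∑ i : Fin (dg K), (((c i : ℕ) : ℤ) - ((c' i : ℕ) : ℤ)) • α ^ (i : ℕ) := by
    rw [← Finset.sum_sub_distrib]
    exact Finset.sum_congr rfl fun i _ => (sub_smul _ _ _).symm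
  rw [hx] at heq
  refine ⟨_, heq, ?_, ?_⟩
  · intro h0
    apply hne
    funext i
    have h1 := (Fintype.linearIndependent_iff.1 hli) _ h0 i
    have h2 : ((c i : ℕ) : ℤ) = ((c' i : ℕ) : ℤ) := by linarith
    exact Fin.ext (by exact_mod_cast h2)
  · intro φ
    have e : φ ((∑ i : Fin (dg K), (((c i : ℕ) : ℤ) - ((c' i : ℕ) : ℤ)) • α ^ (i : ℕ) : 𝓞 K) : K)
        = ∑ i : Fin (dg K), ((((c i : ℕ) : ℤ) - ((c' i : ℕ) : ℤ) : ℤ) : ℂ) * φ (α : K) ^ (i : ℕ) := by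
      simp
    rw [e]
    have hb : ∀ i : Fin (dg K), ‖((((c i : ℕ) : ℤ) - ((c' i : ℕ) : ℤ) : ℤ) : ℂ) * φ (α : K) ^ (i : ℕ)‖
        ≤ r * (T / dg K) := by
      intro i
      rw [norm_mul, norm_pow]
      have h1 : ‖((((c i : ℕ) : ℤ) - ((c' i : ℕ) : ℤ) : ℤ) : ℂ)‖ ≤ r := by
        rw [Complex.norm_intCast]
        have h2 : |(((c i : ℕ) : ℤ) - ((c' i : ℕ) : ℤ))| ≤ (⌊r⌋₊ : ℤ) := by
          have ha := (c i).isLt
          have hb := (c' i).isLt
          rw [abs_le]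
          constructor <;> omega
        have h3 : ((|(((c i : ℕ) : ℤ) - ((c' i : ℕ) : ℤ))| : ℤ) : ℝ) ≤ ((⌊r⌋₊ : ℤ) : ℝ) := by
          exact_mod_cast h2
        rw [Int.cast_abs] at h3
        refine h3.trans ?_
        exact_mod_cast Nat.floor_le hr0
      have h4 : ‖φ (α : K)‖ ^ (i : ℕ) ≤ T / dg K := by
        rw [le_div_iff₀ hdR, mul_comm]
        exact hT φ i i.isLt
      exact mul_le_mul h1 h4 (by positivity) hr0
    calc ‖∑ i : Fin (dg K), ((((c i : ℕ) : ℤ) - ((c' i : ℕ) : ℤ) : ℤ) : ℂ) * φ (α : K) ^ (i : ℕ)‖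
        ≤ ∑ i : Fin (dg K), r * (T / dg K) := norm_sum_le_of_le _ fun i _ => hb i
      _ = T * r := by
          rw [Finset.sum_const, Finset.card_univ, Fintype.card_fin, nsmul_eq_mul]
          field_simp

end Pool.Agent.Helper28.UP
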